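import Pool.Agent.Helper14.LE.St

/-! Project LE (MP_58b586_gt), module SGO. -/

set_option autoImplicit false

namespace Pool.Agent.Helper36.LE

open Pool.Agent.Helper14.LK Pool.Agent.Helper14.LE
open scoped ContDiff Topology
open MeasureTheory Set Filter

private theorem back {E : Type} [NormedAddCommGroup E] [NormedSpace ℝ E]
    {V : E → ℂ → ℂ} {Φ : E → ℝ → ℂ → ℂ} {R : ℝ} (hΦ : PFl V Φ)
    (hleft : ∀ (p : E) (z : ℂ) (s : ℝ), z.re ≤ -R → s ≤ 0 → Φ p s z = z + s)
    (p : E) (z : ℂ) {T T' : ℝ} (h : (Φ p (-T) z).re ≤ -R) (hT : T ≤ T') :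
    (Φ p (-T') z).re = (Φ p (-T) z).re - (T' - T) := by
  have h1 : -T' = -(T' - T) + -T := by ring
  rw [h1, hΦ.add, hleft p _ _ h (by linarith), Complex.add_re, Complex.ofReal_re]
  ring

private theorem cont {E : Type} [NormedAddCommGroup E] [NormedSpace ℝ E]
    {V : E → ℂ → ℂ} {Φ : E → ℝ → ℂ → ℂ} (hΦ : PFl V Φ) (s : ℝ) :
    Continuous fun q : E × ℂ => (Φ q.1 s q.2).re := by
  have h1 : Continuous fun q : E × ℝ × ℂ => Φ q.1 q.2.1 q.2.2 := hΦ.smooth.continuous
  have h2 : Continuous fun q : E × ℂ => ((q.1, s, q.2) : E × ℝ × ℂ) := by fun_prop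
  exact Complex.continuous_re.comp (h1.comp h2)

/-- SGO: all parameters are good, the exit is uniform, the trajectory of `-R`. -/
theorem hSGO (hPFL : StPFL) (hSMN : StSMN) (hSUN : StSUN) : StSGO := by
  intro E _ _ _ _ V Φ R hV hΦ
  obtain ⟨-, hfl⟩ := hPFL E V R hV
  obtain ⟨-, hstr, hleft, hright, hfar, -, ⟨M, hM0, hM⟩, -, -⟩ := hfl Φ hΦ
  have hR := hV.pos
  have hfarp : ∀ p : E, R ≤ ‖p‖ → ∀ z : ℂ, ‖z‖ ≤ R → (Φ p (-(2 * R)) z).re ≤ -R := by
    intro p hp z hz
    rw [hfar p z _ hp, Complex.add_re, Complex.ofReal_re]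
    have := (le_abs_self _).trans (Complex.abs_re_le_norm z)
    linarith
  -- all parameters are good
  have hgood : ∀ p, Good Φ R p := by
    have hcl : IsClosed {p : E | Good Φ R p} := by
      apply isClosed_of_closure_subset
      intro p₀ hp₀
      obtain ⟨δ, T₀, hδ, hT₀, h⟩ := hSUN E V Φ R hV hΦ p₀
      intro z hz
      refine ⟨T₀, hT₀, ?_⟩
      by_contra hcon
      push Not at hcon
      have h1 : IsOpen {p : E | -R < (Φ p (-T₀) z).re} :=
        isOpen_lt continuous_const ((cont hΦ (-T₀)).comp (by fun_prop :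
          Continuous fun p : E => (p, z)))
      obtain ⟨p, ⟨hp1, hp2⟩, hp3⟩ := mem_closure_iff.1 hp₀ _ (h1.inter Metric.isOpen_ball)
        ⟨hcon, Metric.mem_ball_self hδ⟩
      rw [Metric.mem_ball, dist_eq_norm] at hp2
      have h2 := h p hp2 hp3 z hz
      exact absurd hp1 (not_lt.2 h2)
    have hop : IsOpen {p : E | Good Φ R p} := by
      rw [isOpen_iff_mem_nhds]
      intro p₀ hp₀
      obtain ⟨δ, T₀, hδ, hT₀, h⟩ := hSUN E V Φ R hV hΦ p₀
      have h1 : ∀ z ∈ Metric.closedBall (0 : ℂ) R, ∀ᶠ q : E × ℂ in 𝓝 (p₀, z),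
          (Φ q.1 (-(T₀ + 1)) q.2).re < -R := by
        intro z hz
        rw [mem_closedBall_zero_iff] at hz
        have h2 := h p₀ (by rw [sub_self, norm_zero]; exact hδ) hp₀ z hz
        have h3 := back hΦ hleft p₀ z h2 (by linarith : T₀ ≤ T₀ + 1)
        apply (cont hΦ (-(T₀ + 1))).continuousAt.eventually_lt continuousAt_const
        show (Φ p₀ (-(T₀ + 1)) z).re < -R
        linarith
      have h5 := IsCompact.eventually_forall_of_forall_eventually
        (P := fun (p : E) (z : ℂ) => (Φ p (-(T₀ + 1)) z).re < -R)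
        (isCompact_closedBall (0 : ℂ) R) h1
      filter_upwards [h5] with p hp z hz
      exact ⟨T₀ + 1, by linarith, (hp z (mem_closedBall_zero_iff.2 hz)).le⟩
    have hne : {p : E | Good Φ R p}.Nonempty := by
      obtain ⟨p, hp⟩ := NormedSpace.exists_lt_norm ℝ E R
      exact ⟨p, fun z hz => ⟨2 * R, by linarith, hfarp p hp.le z hz⟩⟩
    intro p
    have h1 := IsClopen.eq_univ ⟨hcl, hop⟩ hne
    have h2 : p ∈ {p : E | Good Φ R p} := by rw [h1]; trivial
    exact h2
  refine ⟨hgood, ?_⟩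
  -- uniform time
  obtain ⟨T, hT0, hT⟩ : ∃ T : ℝ, 0 ≤ T ∧ ∀ (p : E) (z : ℂ), ‖z‖ ≤ R →
      (Φ p (-T) z).re ≤ -R := by
    have h1 : ∃ T : ℝ, 0 ≤ T ∧ ∀ p ∈ Metric.closedBall (0 : E) R, ∀ (z : ℂ), ‖z‖ ≤ R →
        (Φ p (-T) z).re ≤ -R := by
      apply (isCompact_closedBall (0 : E) R).induction_on
        (p := fun s => ∃ T : ℝ, 0 ≤ T ∧ ∀ p ∈ s, ∀ (z : ℂ), ‖z‖ ≤ R → (Φ p (-T) z).re ≤ -R)
      · exact ⟨0, le_rfl, fun p hp => absurd hp (notMem_empty p)⟩
      · rintro s t hst ⟨T, hT, h⟩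
        exact ⟨T, hT, fun p hp => h p (hst hp)⟩
      · rintro s t ⟨T, hT, h⟩ ⟨T', hT', h'⟩
        refine ⟨max T T', le_max_of_le_left hT, ?_⟩
        rintro p (hp | hp) z hz
        · have h2 := back hΦ hleft p z (h p hp z hz) (le_max_left T T')
          have h3 := h p hp z hz
          have h4 := le_max_left T T'
          linarith
        · have h2 := back hΦ hleft p z (h' p hp z hz) (le_max_right T T')
          have h3 := h' p hp z hz
          have h4 := le_max_right T T'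
          linarith
      · intro p₀ _
        obtain ⟨δ, T₀, hδ, hT₀, h⟩ := hSUN E V Φ R hV hΦ p₀
        refine ⟨Metric.ball p₀ δ, mem_nhdsWithin_of_mem_nhds (Metric.ball_mem_nhds p₀ hδ),
          T₀, hT₀, ?_⟩
        intro p hp z hz
        rw [Metric.mem_ball, dist_eq_norm] at hp
        exact h p hp (hgood p) z hz
    obtain ⟨T, hT, h⟩ := h1
    refine ⟨max T (2 * R), le_max_of_le_left hT, ?_⟩
    intro p z hz
    rcases le_total ‖p‖ R with hp | hp
    · have h3 := h p (mem_closedBall_zero_iff.2 hp) z hz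
      have h2 := back hΦ hleft p z h3 (le_max_left T (2 * R))
      have h4 := le_max_left T (2 * R)
      linarith
    · have h3 := hfarp p hp z hz
      have h2 := back hΦ hleft p z h3 (le_max_right T (2 * R))
      have h4 := le_max_right T (2 * R)
      linarith
  -- forward
  have hfw : ∀ (p : E) (z : ℂ) (s : ℝ), ‖z‖ ≤ R → T < s → R < ‖Φ p s z‖ := by
    intro p z s hz hs
    by_contra hcon
    push Not at hcon
    have h1 := hT p (Φ p s z) hcon
    have h2 := back hΦ hleft p _ h1 hs.le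
    rw [← hΦ.add p (-s) s z, neg_add_cancel, hΦ.zero] at h2
    have h3 := (neg_le_abs _).trans (Complex.abs_re_le_norm z)
    linarith
  have hfw2 : ∀ (p : E) (z : ℂ) (s : ℝ), ‖z‖ ≤ R → T + 1 ≤ s →
      Φ p s z = Φ p (T + 1) z + ((s - (T + 1) : ℝ) : ℂ) := by
    intro p z s hz hs
    have h1 : s = (s - (T + 1)) + (T + 1) := by ring
    conv_lhs => rw [h1, hΦ.add]
    apply hstr
    intro r hr
    rw [uIcc_of_le (by linarith)] at hr
    rw [← hΦ.add]
    exact (hfw p z _ hz (by linarith [hr.1])).le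
  have hbd : ∀ (p : E) (z : ℂ) (s : ℝ), ‖Φ p s z - z‖ ≤ M * |s| := by
    intro p z s
    have h1 := Convex.norm_image_sub_le_of_norm_hasDerivWithin_le (𝕜 := ℝ)
      (f := fun r => Φ p r z) (f' := fun r => V p (Φ p r z)) (s := univ) (x := 0) (y := s)
      (C := M) (fun r _ => (hΦ.deriv p r z).hasDerivWithinAt) (fun r _ => hM p _) convex_univ
      (mem_univ _) (mem_univ _)
    simp only [hΦ.zero, sub_zero, Real.norm_eq_abs] at h1
    exact h1
  have hz0 : ‖(-(R : ℂ))‖ = R := by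
    rw [norm_neg, Complex.norm_real, Real.norm_eq_abs, abs_of_pos hR]
  obtain ⟨S, hSR, hS⟩ : ∃ S : ℝ, R ≤ S ∧ ∀ (p : E) (s : ℝ), S ≤ s →
      R ≤ (Φ p (s + R) (-R)).re := by
    refine ⟨T + 1 + 2 * R + M * (T + 1), ?_, ?_⟩
    · have : 0 ≤ M * (T + 1) := by positivity
      linarith
    · intro p s hs
      have h0 : 0 ≤ M * (T + 1) := by positivity
      rw [hfw2 p _ (s + R) hz0.le (by linarith), Complex.add_re, Complex.ofReal_re]
      have h1 := (Complex.abs_re_le_norm _).trans (hbd p (-R) (T + 1))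
      rw [abs_of_nonneg (by linarith : (0 : ℝ) ≤ T + 1)] at h1
      have h2 := (abs_le.1 h1).1
      rw [Complex.sub_re, Complex.neg_re, Complex.ofReal_re] at h2
      linarith
  have hstep : ∀ (p : E) (s s' : ℝ), s' ≤ s → R ≤ (Φ p (s' + R) (-R)).re →
      Φ p (s + R) (-R) = Φ p (s' + R) (-R) + ((s - s' : ℝ) : ℂ) := by
    intro p s s' hs h
    have h1 : s + R = (s - s') + (s' + R) := by ring
    rw [h1, hΦ.add]
    exact hright p _ _ h (by linarith)
  refine ⟨fun p => Φ p (S + R) (-R) - S, S, hSR, ?_, ?_, ?_, hS, ?_, ?_⟩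
  · have h1 : ContDiff ℝ ∞ fun p : E => ((p, S + R, -(R : ℂ)) : E × ℝ × ℂ) := by fun_prop
    exact (hΦ.smooth.comp h1).sub contDiff_const
  · intro p hp
    show Φ p (S + R) (-R) - S = 0
    rw [hfar p _ _ hp]
    push_cast
    ring
  · intro p s hs
    show Φ p (s + R) (-R) = s + (Φ p (S + R) (-R) - S)
    rw [hstep p s S hs (hS p S le_rfl)]
    push_cast
    ring
  · intro p s s' hs hs'
    by_cases h : R ≤ (Φ p (s' + R) (-R)).re
    · rw [hstep p s s' hs'.le h, Complex.add_re, Complex.ofReal_re]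
      linarith
    · push Not at h
      exact h.trans_le (hS p s hs)
  · intro p s s' h
    have h0 : Φ p (s + R) (-R) = Φ p (s' + R) (-R) := h
    have hv := hV.ne p (Φ p (s + R) (-R))
    have h1 := (hSMN E V Φ R hV hΦ p (hgood p)).2 (Φ p (s + R) (-R))
      (Complex.I * V p (Φ p (s + R) (-R))) 0 0 (by
        intro r hr
        have hr0 : r = 0 := le_antisymm hr.2 hr.1
        rw [hr0, Complex.ofReal_zero, zero_mul, add_zero]
        have h2 := Complex.normSq_pos.2 hv
        rw [Complex.normSq_apply] at h2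
        simp only [ar, Complex.mul_re, Complex.mul_im, Complex.I_re, Complex.I_im]
        linarith) 0 ⟨le_rfl, le_rfl⟩ 0 ⟨le_rfl, le_rfl⟩ (s' - s) (by
        rw [Complex.ofReal_zero, zero_mul, add_zero, ← hΦ.add, h0]
        congr 1
        ring)
    linarith

end Pool.Agent.Helper36.LE
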